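import Mathlib

/-!
Gaps between the multiples `a * s ^ 2` of the squares modulo `r`: every interval of length `2 k` with
`2 * r * τ(r) < k ^ 2` contains one. Elementary second moment argument.
-/

set_option autoImplicit false

namespace Pool.Agent.QSqL

open Finset

variable {r : ℕ} [NeZero r]

/-- the solutions of `b v + j = y` with `j < k` -/
def Sol (b y : ZMod r) (k : ℕ) : Finset (ZMod r × ℕ) :=
  (univ ×ˢ range k).filter fun p => b * p.1 + (p.2 : ZMod r) = y

omit [NeZero r] in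
lemma dvd_of_eq {x y : ℤ} (h : (x : ZMod r) = (y : ZMod r)) : (r : ℤ) ∣ x - y := by
  rw [← ZMod.intCast_zmod_eq_zero_iff_dvd]
  push_cast
  rw [h, sub_self]

lemma card_Sol_le (b y : ZMod r) (k : ℕ) : (Sol b y k).card ≤ k + Nat.gcd b.val r := by
  have hr : 0 < r := Nat.pos_of_ne_zero (NeZero.ne r)
  set B := b.val with hB
  set g := Nat.gcd B r with hg
  have hg0 : 0 < g := Nat.gcd_pos_of_pos_right _ hr
  obtain ⟨n, hn⟩ : g ∣ r := Nat.gcd_dvd_right _ _
  obtain ⟨B', hB'⟩ : g ∣ B := Nat.gcd_dvd_left _ _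
  have hn0 : 0 < n := by
    rcases Nat.eq_zero_or_pos n with h | h
    · rw [h, mul_zero] at hn; omega
    · exact h
  have hcop : Nat.Coprime B' n := by
    have h1 : Nat.gcd (g * B') (g * n) = g := by rw [← hB', ← hn]
    rw [Nat.gcd_mul_left] at h1
    have h2 : g * Nat.gcd B' n = g * 1 := by rw [h1, mul_one]
    exact Nat.eq_of_mul_eq_mul_left hg0 h2
  have hvlt : ∀ v : ZMod r, v.val / n < g := by
    intro v
    rw [Nat.div_lt_iff_lt_mul hn0, ← hn]
    exact ZMod.val_lt v
  rw [← card_range (k + g)]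
  refine card_le_card_of_injOn (fun p => p.2 / g * g + p.1.val / n) ?_ ?_
  · intro p hp
    have hp' := mem_filter.1 (mem_coe.1 hp)
    have hp1 := (mem_product.1 hp'.1).2
    rw [mem_range] at hp1
    rw [mem_coe, mem_range]
    have h1 := Nat.div_mul_le_self p.2 g
    have h2 := hvlt p.1
    show p.2 / g * g + p.1.val / n < k + g
    omega
  · intro p hp q hq hpq
    have hp' := (mem_filter.1 (mem_coe.1 hp)).2
    have hq' := (mem_filter.1 (mem_coe.1 hq)).2
    have hpq' : p.2 / g * g + p.1.val / n = q.2 / g * g + q.1.val / n := hpq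
    have h1 := hvlt p.1
    have h2 := hvlt q.1
    have e1 : p.2 / g = q.2 / g := by
      have h3 : (p.2 / g * g + p.1.val / n) / g = p.2 / g := by
        rw [add_comm, Nat.add_mul_div_right _ _ hg0, Nat.div_eq_of_lt h1, zero_add]
      have h4 : (q.2 / g * g + q.1.val / n) / g = q.2 / g := by
        rw [add_comm, Nat.add_mul_div_right _ _ hg0, Nat.div_eq_of_lt h2, zero_add]
      rw [← h3, ← h4, hpq']
    have e2 : p.1.val / n = q.1.val / n := by
      rw [e1] at hpq'
      omega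
    -- the congruence
    have h5 : (r : ℤ) ∣ ((B : ℤ) * p.1.val + p.2) - ((B : ℤ) * q.1.val + q.2) := by
      apply dvd_of_eq
      push_cast
      rw [hB, ZMod.natCast_zmod_val, ZMod.natCast_zmod_val, ZMod.natCast_zmod_val, hp', hq']
    have h6 : (g : ℤ) ∣ (p.2 : ℤ) - q.2 := by
      have h7 : (g : ℤ) ∣ ((B : ℤ) * p.1.val + p.2) - ((B : ℤ) * q.1.val + q.2) :=
        (Int.natCast_dvd_natCast.2 ⟨n, hn⟩).trans h5
      have h8 : (g : ℤ) ∣ (B : ℤ) * (p.1.val - q.1.val) :=
        Dvd.dvd.mul_right (Int.natCast_dvd_natCast.2 ⟨B', hB'⟩) _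
      have h9 := dvd_sub h7 h8
      have h10 : ((B : ℤ) * p.1.val + p.2) - ((B : ℤ) * q.1.val + q.2)
        - (B : ℤ) * (p.1.val - q.1.val) = (p.2 : ℤ) - q.2 := by ring
      rwa [h10] at h9
    have e3 : p.2 = q.2 := by
      have h7 : p.2 % g = q.2 % g := by
        have h8 : ((p.2 : ℤ)) ≡ q.2 [ZMOD g] := (Int.modEq_iff_dvd.2 (by
          have h9 := (dvd_neg (α := ℤ)).2 h6
          rwa [neg_sub] at h9))
        have h9 := (Int.natCast_modEq_iff.1 h8)
        exact h9
      have h8 := Nat.div_add_mod p.2 g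
      have h9 := Nat.div_add_mod q.2 g
      rw [e1, h7] at h8
      omega
    have h7 : (n : ℤ) ∣ (p.1.val : ℤ) - q.1.val := by
      rw [e3] at h5
      have h8 : (g : ℤ) * n ∣ (g : ℤ) * ((B' : ℤ) * ((p.1.val : ℤ) - q.1.val)) := by
        have h9 : ((B : ℤ) * p.1.val + q.2) - ((B : ℤ) * q.1.val + q.2) =
            (g : ℤ) * ((B' : ℤ) * ((p.1.val : ℤ) - q.1.val)) := by
          rw [hB']; push_cast; ring
        rw [h9] at h5
        have h10 : (r : ℤ) = (g : ℤ) * n := by rw [hn]; push_cast; ring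
        rwa [h10] at h5
      have hg0' : (g : ℤ) ≠ 0 := by exact_mod_cast hg0.ne'
      have h9 := (mul_dvd_mul_iff_left hg0').1 h8
      exact (Nat.isCoprime_iff_coprime.2 hcop.symm).dvd_of_dvd_mul_left h9
    have e4 : p.1.val = q.1.val := by
      have h8 : p.1.val % n = q.1.val % n := by
        have h8 : ((p.1.val : ℤ)) ≡ q.1.val [ZMOD n] := (Int.modEq_iff_dvd.2 (by
          have h9 := (dvd_neg (α := ℤ)).2 h7
          rwa [neg_sub] at h9))
        exact (Int.natCast_modEq_iff.1 h8)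
      have h9 := Nat.div_add_mod p.1.val n
      have h10 := Nat.div_add_mod q.1.val n
      rw [e2, h8] at h9
      omega
    exact Prod.ext (ZMod.val_injective r e4) e3

/-- the sum of `gcd (2 u, r)` -/
lemma sum_gcd_le : ∑ w : ZMod r, Nat.gcd (2 * w).val r ≤ 2 * r * r.divisors.card := by
  have hr : 0 < r := Nat.pos_of_ne_zero (NeZero.ne r)
  have hmaps : ∀ w ∈ (univ : Finset (ZMod r)), Nat.gcd (2 * w).val r ∈ r.divisors := by
    intro w _
    exact Nat.mem_divisors.2 ⟨Nat.gcd_dvd_right _ _, hr.ne'⟩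
  rw [← sum_fiberwise_of_maps_to hmaps]
  have h1 : ∀ d ∈ r.divisors, ∑ w ∈ univ.filter (fun w : ZMod r => Nat.gcd (2 * w).val r = d),
      Nat.gcd (2 * w).val r ≤ 2 * r := by
    intro d hd
    have hdr : d ∣ r := (Nat.mem_divisors.1 hd).1
    have hd0 : 0 < d := Nat.pos_of_dvd_of_pos hdr hr
    obtain ⟨n, hn⟩ := hdr
    have h2 : ∑ w ∈ univ.filter (fun w : ZMod r => Nat.gcd (2 * w).val r = d),
        Nat.gcd (2 * w).val r = (univ.filter (fun w : ZMod r => Nat.gcd (2 * w).val r = d)).card * d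
        := by
      rw [sum_congr rfl (fun w hw => (mem_filter.1 hw).2), sum_const, smul_eq_mul]
    rw [h2]
    have h3 : (univ.filter (fun w : ZMod r => Nat.gcd (2 * w).val r = d)).card ≤ 2 * n := by
      rw [← card_range (2 * n)]
      have hdw : ∀ w : ZMod r, Nat.gcd (2 * w).val r = d → d ∣ 2 * w.val := by
        intro w hw
        have h4 : d ∣ (2 * w).val := by rw [← hw]; exact Nat.gcd_dvd_left _ _
        have h5 : (r : ℤ) ∣ (2 * (w.val : ℤ)) - (((2 * w).val : ℕ) : ℤ) := by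
          apply dvd_of_eq
          push_cast
          rw [ZMod.natCast_zmod_val, ZMod.natCast_zmod_val]
        have h6 : (d : ℤ) ∣ (2 * (w.val : ℤ)) := by
          have h7 : (d : ℤ) ∣ (r : ℤ) := Int.natCast_dvd_natCast.2 ⟨n, hn⟩
          have h8 := dvd_add (h7.trans h5) (Int.natCast_dvd_natCast.2 h4)
          rwa [sub_add_cancel] at h8
        exact_mod_cast h6
      refine card_le_card_of_injOn (fun w => 2 * w.val / d) ?_ ?_
      · intro w hw
        have hw' := (mem_filter.1 (mem_coe.1 hw)).2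
        rw [mem_coe, mem_range]
        show 2 * w.val / d < 2 * n
        rw [Nat.div_lt_iff_lt_mul hd0]
        have := ZMod.val_lt w
        nlinarith
      · intro w hw v hv hwv
        have hw' := hdw w (mem_filter.1 (mem_coe.1 hw)).2
        have hv' := hdw v (mem_filter.1 (mem_coe.1 hv)).2
        have hwv' : 2 * w.val / d = 2 * v.val / d := hwv
        have h4 := Nat.div_mul_cancel hw'
        have h5 := Nat.div_mul_cancel hv'
        rw [hwv', h5] at h4
        exact ZMod.val_injective r (by omega)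
    calc _ ≤ 2 * n * d := Nat.mul_le_mul_right d h3
      _ = 2 * r := by rw [hn]; ring
  refine (sum_le_sum h1).trans ?_
  rw [sum_const, smul_eq_mul]
  exact le_of_eq (by ring)

/-- the number of `(s, i)` with `a s² = x + i` -/
def NN (a : ZMod r) (k : ℕ) (x : ZMod r) : ℕ :=
  ((univ ×ˢ range k).filter fun p : ZMod r × ℕ => a * p.1 ^ 2 = x + (p.2 : ZMod r)).card

lemma NN_eq (a : ZMod r) (k : ℕ) (x : ZMod r) : NN a k x =
    ∑ p ∈ (univ : Finset (ZMod r)) ×ˢ range k, if a * p.1 ^ 2 - (p.2 : ZMod r) = x then 1 else 0 := by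
  unfold NN
  rw [card_filter]
  exact sum_congr rfl fun p _ =>
    if_congr ⟨fun h => by rw [h]; ring, fun h => by rw [← h]; ring⟩ rfl rfl

lemma sum_NN (a : ZMod r) (k : ℕ) : ∑ x, NN a k x = r * k := by
  simp_rw [NN_eq]
  rw [sum_comm]
  have h1 : ∀ p ∈ (univ : Finset (ZMod r)) ×ˢ range k,
      ∑ x : ZMod r, (if a * p.1 ^ 2 - (p.2 : ZMod r) = x then 1 else 0) = 1 := by
    intro p _
    simp only [sum_ite_eq, mem_univ, if_true]
  rw [sum_congr rfl h1, sum_const, card_product, card_univ, ZMod.card, card_range, smul_eq_mul,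
    mul_one]

lemma sum_NN_sq (a : ZMod r) (k : ℕ) : ∑ x, NN a k x ^ 2 =
    ∑ i ∈ range k, ∑ u : ZMod r, (Sol (2 * (a * u)) ((i : ZMod r) - a * u ^ 2) k).card := by
  have h1 : ∑ x, NN a k x ^ 2 = ∑ p ∈ (univ : Finset (ZMod r)) ×ˢ range k,
      ∑ q ∈ (univ : Finset (ZMod r)) ×ˢ range k,
        if a * p.1 ^ 2 - (p.2 : ZMod r) = a * q.1 ^ 2 - (q.2 : ZMod r) then 1 else 0 := by
    simp_rw [NN_eq, sq (∑ p ∈ (univ : Finset (ZMod r)) ×ˢ range k, _), sum_mul_sum]
    rw [sum_comm]
    refine sum_congr rfl fun p _ => ?_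
    rw [sum_comm]
    refine sum_congr rfl fun q _ => ?_
    have h2 : ∀ x : ZMod r, (if a * p.1 ^ 2 - (p.2 : ZMod r) = x then 1 else 0) *
        (if a * q.1 ^ 2 - (q.2 : ZMod r) = x then 1 else 0) =
        if a * p.1 ^ 2 - (p.2 : ZMod r) = x then
          (if a * p.1 ^ 2 - (p.2 : ZMod r) = a * q.1 ^ 2 - (q.2 : ZMod r) then 1 else 0) else 0 := by
      intro x
      by_cases hx : a * p.1 ^ 2 - (p.2 : ZMod r) = x
      · rw [if_pos hx, if_pos hx, one_mul, hx]
        exact if_congr ⟨fun h => h.symm, fun h => h.symm⟩ rfl rfl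
      · rw [if_neg hx, if_neg hx, zero_mul]
    simp only [h2, sum_ite_eq, mem_univ, if_true]
  rw [h1, sum_product, sum_comm]
  refine sum_congr rfl fun i _ => ?_
  simp_rw [sum_product]
  rw [sum_comm]
  have h3 : ∀ s : ZMod r, ∑ t : ZMod r, ∑ j ∈ range k,
      (if a * t ^ 2 - (i : ZMod r) = a * s ^ 2 - (j : ZMod r) then 1 else 0) =
      ∑ u : ZMod r, ∑ j ∈ range k,
        (if 2 * (a * u) * s + (j : ZMod r) = (i : ZMod r) - a * u ^ 2 then 1 else 0) := by
    intro s
    rw [← Equiv.sum_comp (Equiv.addLeft s)]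
    refine sum_congr rfl fun u _ => sum_congr rfl fun j _ => ?_
    refine if_congr ?_ rfl rfl
    rw [Equiv.coe_addLeft]
    constructor
    · intro h
      linear_combination h
    · intro h
      linear_combination h
  simp_rw [h3]
  rw [sum_comm]
  refine sum_congr rfl fun u _ => ?_
  unfold Sol
  rw [card_filter, sum_product]

/-- **Gap lemma** in `ZMod r` -/
theorem gap_zmod (a : ZMod r) (ha : IsUnit a) (k : ℕ) (hk : 2 * r * r.divisors.card < k ^ 2)
    (c : ZMod r) : ∃ (s : ZMod r) (t : ℕ), t < 2 * k ∧ a * s ^ 2 = c + (t : ZMod r) := by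
  have hr : 0 < r := Nat.pos_of_ne_zero (NeZero.ne r)
  have hk0 : 0 < k := by
    rcases Nat.eq_zero_or_pos k with h | h
    · rw [h] at hk; simp at hk
    · exact h
  by_cases hkr : r < k
  · refine ⟨0, (-c).val, ?_, ?_⟩
    · have := ZMod.val_lt (-c)
      omega
    · rw [ZMod.natCast_zmod_val]
      ring
  by_contra hno
  push Not at hno
  have hzero : ∀ t ∈ range k, NN a k (c + (t : ZMod r)) = 0 := by
    intro t ht
    unfold NN
    rw [card_eq_zero, filter_eq_empty_iff]
    intro p hp h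
    have h1 := mem_range.1 (mem_product.1 hp).2
    rw [mem_range] at ht
    refine hno p.1 (t + p.2) (by omega) ?_
    rw [h]; push_cast; ring
  -- second moment
  have hM : ∑ x, NN a k x ^ 2 ≤ k * (r * k + 2 * r * r.divisors.card) := by
    rw [sum_NN_sq]
    have h1 : ∀ i ∈ range k, ∑ u : ZMod r,
        (Sol (2 * (a * u)) ((i : ZMod r) - a * u ^ 2) k).card ≤
        r * k + 2 * r * r.divisors.card := by
      intro i _
      refine (sum_le_sum fun u _ => card_Sol_le (2 * (a * u)) _ k).trans ?_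
      rw [sum_add_distrib, sum_const, card_univ, ZMod.card, smul_eq_mul]
      refine Nat.add_le_add_left ?_ _
      refine le_trans (le_of_eq ?_) (sum_gcd_le (r := r))
      obtain ⟨a', rfl⟩ := ha
      exact Equiv.sum_comp (Units.mulLeft a') (fun w : ZMod r => Nat.gcd (2 * w).val r)
    refine (sum_le_sum h1).trans ?_
    rw [sum_const, card_range, smul_eq_mul]
  -- lower bound
  have hinj : Set.InjOn (fun t : ℕ => c + (t : ZMod r)) (range k : Set ℕ) := by
    intro t ht t' ht' htt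
    rw [mem_coe, mem_range] at ht ht'
    have h1 : ((t : ℤ) : ZMod r) = ((t' : ℤ) : ZMod r) := by
      push_cast
      exact add_left_cancel htt
    have h2 := dvd_of_eq h1
    have h3 : (t : ℤ) ≡ t' [ZMOD r] := (Int.modEq_iff_dvd.2 (by
      have h9 := (dvd_neg (α := ℤ)).2 h2
      rwa [neg_sub] at h9))
    have h4 : t % r = t' % r := Int.natCast_modEq_iff.1 h3
    rcases (show t < r ∨ t = r by omega) with h5 | h5
    · rcases (show t' < r ∨ t' = r by omega) with h6 | h6
      · rwa [Nat.mod_eq_of_lt h5, Nat.mod_eq_of_lt h6] at h4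
      · omega
    · omega
  have hlow : (k : ℤ) * (k : ℤ) ^ 2 ≤ ∑ x : ZMod r, ((NN a k x : ℤ) - k) ^ 2 := by
    have h1 : ∑ x ∈ (range k).image (fun t : ℕ => c + (t : ZMod r)), ((NN a k x : ℤ) - k) ^ 2
        = (k : ℤ) * (k : ℤ) ^ 2 := by
      rw [sum_image hinj]
      have h2 : ∀ t ∈ range k, ((NN a k (c + (t : ZMod r)) : ℤ) - k) ^ 2 = (k : ℤ) ^ 2 := by
        intro t ht
        rw [hzero t ht]; push_cast; ring
      rw [sum_congr rfl h2, sum_const, card_range, nsmul_eq_mul]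
    rw [← h1]
    exact sum_le_sum_of_subset_of_nonneg (subset_univ _) fun x _ _ => sq_nonneg _
  have hexp : ∑ x : ZMod r, ((NN a k x : ℤ) - k) ^ 2 =
      ((∑ x, NN a k x ^ 2 : ℕ) : ℤ) - r * k ^ 2 := by
    have h1 : ∀ x : ZMod r, ((NN a k x : ℤ) - k) ^ 2 =
        (NN a k x : ℤ) ^ 2 - 2 * k * (NN a k x : ℤ) + k ^ 2 := fun x => by ring
    rw [sum_congr rfl fun x _ => h1 x, sum_add_distrib, sum_sub_distrib, ← mul_sum, sum_const,
      card_univ, ZMod.card, nsmul_eq_mul]
    have h2 := sum_NN a k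
    have h3 : ∑ x : ZMod r, (NN a k x : ℤ) = r * k := by exact_mod_cast h2
    rw [h3]
    push_cast
    ring
  have hM' : ((∑ x, NN a k x ^ 2 : ℕ) : ℤ) ≤ k * (r * k + 2 * r * r.divisors.card) := by
    exact_mod_cast hM
  have hk' : (2 * r * r.divisors.card : ℤ) < k ^ 2 := by exact_mod_cast hk
  have hk0' : (0 : ℤ) < k := by exact_mod_cast hk0
  have h5 := mul_lt_mul_of_pos_left hk' hk0'
  nlinarith

/-- **Gap lemma**: every interval of length `2 k` contains an integer congruent to `a s²`. -/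
theorem gap_int (r : ℕ) (hr : 0 < r) (a : ℤ) (ha : IsCoprime a (r : ℤ)) (k : ℕ)
    (hk : 2 * r * r.divisors.card < k ^ 2) (c : ℤ) :
    ∃ (s : ℕ) (m : ℤ), s < r ∧ c ≤ a * (s : ℤ) ^ 2 - r * m ∧ a * (s : ℤ) ^ 2 - r * m < c + 2 * k := by
  haveI : NeZero r := ⟨hr.ne'⟩
  have hu : IsUnit (a : ZMod r) := by
    obtain ⟨u, v, huv⟩ := ha
    refine IsUnit.of_mul_eq_one (u : ZMod r) ?_
    have h1 := congrArg (fun x : ℤ => (x : ZMod r)) huv
    push_cast at h1
    rw [ZMod.natCast_self, mul_zero, add_zero] at h1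
    rw [mul_comm]
    exact h1
  obtain ⟨s, t, ht, hs⟩ := gap_zmod (a : ZMod r) hu k hk (c : ZMod r)
  have h1 : (r : ℤ) ∣ a * (s.val : ℤ) ^ 2 - (c + t) := by
    apply dvd_of_eq
    push_cast
    rw [ZMod.natCast_zmod_val, hs]
  obtain ⟨m, hm⟩ := h1
  refine ⟨s.val, m, ZMod.val_lt s, ?_, ?_⟩
  · have : (0 : ℤ) ≤ t := Int.natCast_nonneg t
    linarith
  · have : (t : ℤ) < 2 * k := by exact_mod_cast ht
    linarith

end Pool.Agent.QSqL
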