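import Pool.Agent.QSqL.Gap
import Pool.Agent.Lib.ANT.DivBound

/-!
Small values of `‖q²θ - η‖` for very well approximable `θ`, uniformly in `η`.
-/

set_option autoImplicit false

namespace Pool.Agent.QSqL

open Filter Topology Pool.Agent.ANT

/-- good approximations in lowest terms -/
lemma coprime_approx {p θ : ℝ} (h : LiouvilleWith p θ) (hp : 1 < p) : ∃ C : ℝ, 0 < C ∧ ∀ R : ℕ,
    ∃ (a : ℤ) (r : ℕ), R < r ∧ IsCoprime a (r : ℤ) ∧ θ ≠ a / r ∧
      |θ - a / r| < C / (r : ℝ) ^ p := by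
  obtain ⟨C, hC, hf⟩ := h.exists_pos
  have hirr := h.irrational hp
  refine ⟨C, hC, fun R => ?_⟩
  have h1 := hirr.eventually_forall_le_dist_cast_rat_of_den_le R
  have h2 : Tendsto (fun n : ℕ => C / (n : ℝ) ^ p) atTop (𝓝 0) := by
    refine Tendsto.div_atTop tendsto_const_nhds ?_
    exact (tendsto_rpow_atTop (by linarith)).comp tendsto_natCast_atTop_atTop
  obtain ⟨n, ⟨hn1, m, hm, hlt⟩, hn⟩ := (hf.and_eventually (h2.eventually h1)).exists
  set q : ℚ := (m : ℚ) / ((n : ℤ) : ℚ) with hq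
  have hqcast : (q : ℝ) = m / n := by rw [hq]; push_cast; rfl
  have hden : q.den ∣ n := by
    have h3 := Rat.den_dvd m n
    rw [Rat.divInt_eq_div, ← hq] at h3
    exact Int.natCast_dvd_natCast.1 h3
  have hdef : ((q.num : ℤ) : ℝ) / ((q.den : ℕ) : ℝ) = (m : ℝ) / n := by
    rw [← hqcast]
    exact (Rat.cast_def q).symm
  have hdle : q.den ≤ n := Nat.le_of_dvd (by omega) hden
  refine ⟨q.num, q.den, ?_, ?_, ?_, ?_⟩
  · by_contra hle
    have h4 := hn q (not_lt.1 hle)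
    rw [hqcast, Real.dist_eq] at h4
    linarith
  · rw [Int.isCoprime_iff_gcd_eq_one]
    exact q.reduced
  · rw [hdef]; exact hm
  · rw [hdef]
    refine hlt.trans_le ?_
    have h5 : (0 : ℝ) < q.den := by exact_mod_cast q.den_pos
    have h6 : (q.den : ℝ) ≤ n := by exact_mod_cast hdle
    exact div_le_div_of_nonneg_left hC.le (Real.rpow_pos_of_pos h5 p)
      (Real.rpow_le_rpow h5.le h6 (by linarith))

/-- one scale -/
lemma one_scale {θ β : ℝ} {a : ℤ} {r k : ℕ} (hr : 0 < r) (ha : IsCoprime a (r : ℤ))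
    (hθ : θ = a / r + β) (hβ : 0 < β) (hk : 2 * r * r.divisors.card < k ^ 2)
    (hbig : (r : ℝ) ^ 3 * β ≤ k) (η : ℝ) :
    ∃ q : ℕ, r ≤ q ∧ (q : ℝ) ≤ 4 * √(k / (r * β)) ∧
      |(q : ℝ) ^ 2 * θ - η - ((round ((q : ℝ) ^ 2 * θ - η) : ℤ) : ℝ)| ≤ 6 * √(k * (r * β)) := by
  have hk0 : 0 < k := by
    rcases Nat.eq_zero_or_pos k with h | h
    · rw [h] at hk; simp at hk
    · exact h
  have hk1 : (1 : ℝ) ≤ k := by exact_mod_cast hk0
  have hr0 : (0 : ℝ) < r := by exact_mod_cast hr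
  have hr1 : (1 : ℝ) ≤ r := by exact_mod_cast hr
  obtain ⟨s, m, hs, h1, h2⟩ := gap_int r hr a ha k hk ⌈r * η - 4 * k⌉
  have hs' : (s : ℝ) < r := by exact_mod_cast hs
  have hs0 : (0 : ℝ) ≤ s := Nat.cast_nonneg s
  set w : ℝ := (a : ℝ) * (s : ℝ) ^ 2 - r * m with hw
  have hw1 : r * η - 4 * k ≤ w := by
    have h3 : ((⌈r * η - 4 * k⌉ : ℤ) : ℝ) ≤ ((a * (s : ℤ) ^ 2 - r * m : ℤ) : ℝ) := by
      exact_mod_cast h1
    push_cast at h3
    exact (Int.le_ceil _).trans h3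
  have hw2 : w < r * η - 2 * k + 1 := by
    have h3 : ((a * (s : ℤ) ^ 2 - r * m : ℤ) : ℝ) < ((⌈r * η - 4 * k⌉ + 2 * k : ℤ) : ℝ) := by
      exact_mod_cast h2
    push_cast at h3
    have h4 := Int.ceil_lt_add_one (r * η - 4 * (k : ℝ))
    linarith
  set v : ℝ := η - w / r with hv
  have hv1 : k / r ≤ v := by
    rw [hv, div_le_iff₀ hr0]
    have h3 : (η - w / r) * r = r * η - w := by field_simp
    rw [h3]; linarith
  have hv2 : v ≤ 4 * (k / r) := by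
    have h3 : (η - w / r) * r = r * η - w := by field_simp
    have h4 : 4 * ((k : ℝ) / r) * r = 4 * k := by field_simp
    rw [hv]
    refine le_of_mul_le_mul_right ?_ hr0
    rw [h3, h4]; linarith
  have hv0 : 0 < v := lt_of_lt_of_le (by positivity) hv1
  set Q : ℝ := √(v / β) with hQ
  have hQ2 : Q ^ 2 = v / β := Real.sq_sqrt (by positivity)
  have hQβ : Q ^ 2 * β = v := by rw [hQ2]; field_simp
  have hQr : (r : ℝ) ≤ Q := by
    refine Real.le_sqrt_of_sq_le ?_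
    rw [le_div_iff₀ hβ]
    refine le_trans ?_ hv1
    rw [le_div_iff₀ hr0]
    calc (r : ℝ) ^ 2 * β * r = r ^ 3 * β := by ring
      _ ≤ (k : ℝ) := hbig
  have hQ0 : 0 < Q := lt_of_lt_of_le hr0 hQr
  set t : ℕ := ⌈(Q - s) / r⌉₊ with ht
  have ht0 : 0 ≤ (Q - s) / r := div_nonneg (by linarith) hr0.le
  have ht1 : (Q - s) / r ≤ t := Nat.le_ceil _
  have ht2 : (t : ℝ) < (Q - s) / r + 1 := Nat.ceil_lt_add_one ht0
  set q : ℕ := s + r * t with hq
  have hqc : (q : ℝ) = s + r * t := by rw [hq]; push_cast; ring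
  have hq1 : Q ≤ q := by
    rw [hqc]
    rw [div_le_iff₀ hr0] at ht1
    linarith
  have hq2 : (q : ℝ) < Q + r := by
    rw [hqc]
    have h3 : (Q - s) / r * r = Q - s := by field_simp
    nlinarith
  have hQk : Q ≤ 2 * √(k / (r * β)) := by
    have h3 : (2 : ℝ) * √(k / (r * β)) = √(4 * (k / (r * β))) := by
      rw [Real.sqrt_mul (by norm_num), show (4 : ℝ) = 2 ^ 2 by norm_num, Real.sqrt_sq (by norm_num)]
    rw [h3, hQ]
    refine Real.sqrt_le_sqrt ?_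
    rw [div_le_iff₀ hβ]
    refine hv2.trans (le_of_eq ?_)
    field_simp
  refine ⟨q, ?_, ?_, ?_⟩
  · have : (r : ℝ) ≤ q := hQr.trans hq1
    exact_mod_cast this
  · linarith
  · -- the error
    have hx : (q : ℝ) ^ 2 * θ - η - ((a * (2 * s * t + r * (t : ℤ) ^ 2) + m : ℤ) : ℝ) =
        (q : ℝ) ^ 2 * β - v := by
      have e1 : (q : ℝ) ^ 2 = s ^ 2 + r * (2 * s * t + r * t ^ 2) := by rw [hqc]; ring
      have e2 : (a : ℝ) * s ^ 2 / r = w / r + m := by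
        rw [hw]; field_simp; ring
      have e3 : (q : ℝ) ^ 2 * (a / r) = a * s ^ 2 / r + a * (2 * s * t + r * t ^ 2) := by
        rw [e1]; field_simp
      rw [hθ, mul_add, e3, e2, hv]
      push_cast
      ring
    refine (round_le _ (a * (2 * s * t + r * (t : ℤ) ^ 2) + m)).trans ?_
    rw [hx]
    have h3 : 0 ≤ (q : ℝ) ^ 2 * β - v := by
      rw [← hQβ, ← sub_mul]
      have : Q ^ 2 ≤ (q : ℝ) ^ 2 := by gcongr
      exact mul_nonneg (by linarith) hβ.le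
    rw [abs_of_nonneg h3, ← hQβ, ← sub_mul]
    have h4 : (q : ℝ) ^ 2 - Q ^ 2 ≤ 3 * Q * r := by nlinarith
    have hy : 0 < r * β := by positivity
    calc ((q : ℝ) ^ 2 - Q ^ 2) * β ≤ 3 * Q * r * β := by gcongr
      _ = 3 * Q * (r * β) := by ring
      _ ≤ 3 * (2 * √(k / (r * β))) * (r * β) := by gcongr
      _ = 6 * (√(k / (r * β)) * (r * β)) := by ring
      _ = 6 * √(k * (r * β)) := by
          congr 1
          rw [← Real.sqrt_sq hy.le, ← Real.sqrt_mul (by positivity), Real.sqrt_sq hy.le]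
          congr 1
          field_simp

/-- one scale, both signs of `β` -/
lemma one_scale' {θ : ℝ} {a : ℤ} {r k : ℕ} (hr : 0 < r) (ha : IsCoprime a (r : ℤ))
    (hθ : θ ≠ a / r) (hk : 2 * r * r.divisors.card < k ^ 2)
    (hbig : (r : ℝ) ^ 3 * |θ - a / r| ≤ k) (η : ℝ) :
    ∃ q : ℕ, r ≤ q ∧ (q : ℝ) ≤ 4 * √(k / (r * |θ - a / r|)) ∧
      |(q : ℝ) ^ 2 * θ - η - ((round ((q : ℝ) ^ 2 * θ - η) : ℤ) : ℝ)| ≤
        6 * √(k * (r * |θ - a / r|)) := by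
  rcases lt_or_gt_of_ne (sub_ne_zero.2 hθ) with h | h
  · have hab : |θ - a / r| = -(θ - a / r) := abs_of_neg h
    have ha' : IsCoprime (-a) (r : ℤ) := ha.neg_left
    obtain ⟨q, h1, h2, h3⟩ := one_scale (θ := -θ) (β := |θ - a / r|) hr ha' (by
      rw [hab]; push_cast; ring) (by rw [hab]; linarith) hk hbig (-η)
    refine ⟨q, h1, h2, ?_⟩
    refine (round_le _ (-round ((q : ℝ) ^ 2 * (-θ) - (-η)))).trans ?_
    refine le_trans (le_of_eq ?_) h3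
    rw [← abs_neg]
    congr 1
    push_cast
    ring
  · have hab : |θ - a / r| = θ - a / r := abs_of_pos h
    exact one_scale (θ := θ) (β := |θ - a / r|) hr ha (by rw [hab]; ring)
      (by rw [hab]; exact h) hk hbig η

/-- elementary inequality between powers -/
lemma pow_bound {x y X Y τ : ℝ} (hx : 0 < x) (hy : 0 < y) (hxX : x ≤ X) (hyY : y ≤ Y)
    (hτ0 : 0 ≤ τ) (hτ1 : τ ≤ 1) :
    √(x * y) * (√(x / y)) ^ τ ≤ X ^ ((1 + τ) / 2) * Y ^ ((1 - τ) / 2) := by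
  have h1 : √(x * y) * (√(x / y)) ^ τ = x ^ ((1 + τ) / 2) * y ^ ((1 - τ) / 2) := by
    rw [Real.sqrt_eq_rpow, Real.sqrt_eq_rpow, ← Real.rpow_mul (by positivity),
      Real.mul_rpow hx.le hy.le, Real.div_rpow hx.le hy.le]
    have e1 : (1 + τ) / 2 = 1 / 2 + 1 / 2 * τ := by ring
    have e2 : (1 - τ) / 2 = 1 / 2 - 1 / 2 * τ := by ring
    rw [e1, e2, Real.rpow_add hx, Real.rpow_sub hy]
    ring
  rw [h1]
  have h2 : x ^ ((1 + τ) / 2) ≤ X ^ ((1 + τ) / 2) := Real.rpow_le_rpow hx.le hxX (by linarith)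
  have h3 : y ^ ((1 - τ) / 2) ≤ Y ^ ((1 - τ) / 2) := Real.rpow_le_rpow hy.le hyY (by linarith)
  exact mul_le_mul h2 h3 (by positivity) (by have := hx.trans_le hxX; positivity)

/-- **Main theorem**, exponents `0 ≤ τ`. -/
theorem main_nonneg {p θ : ℝ} (hp : 5 / 2 < p) (h : LiouvilleWith p θ) {τ : ℝ} (hτ0 : 0 ≤ τ)
    (hτ : τ < (2 * p - 3) / (2 * p - 1)) (δ : ℝ) (hδ : 0 < δ) (N₀ : ℕ) :
    ∃ N : ℕ, ∀ η : ℝ, ∃ q : ℕ, N₀ < q ∧ q ≤ N ∧
      (N : ℝ) ^ τ * |(q : ℝ) ^ 2 * θ - η - ((round ((q : ℝ) ^ 2 * θ - η) : ℤ) : ℝ)| < δ := by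
  obtain ⟨C, hC, hA⟩ := coprime_approx h (by linarith)
  have hp1 : 0 < 2 * p - 1 := by linarith
  rw [lt_div_iff₀ hp1] at hτ
  have hτ1 : τ < 1 := by nlinarith
  -- the exponents
  set X : ℝ := (p - 1) * (1 - τ) - (1 + τ) / 2 with hX
  have hX0 : 0 < X := by rw [hX]; nlinarith
  set ε₀ : ℝ := X / (1 + τ) with hε₀
  have hε₀0 : 0 < ε₀ := by positivity
  set κ : ℝ := (1 + ε₀) / 2 with hκ
  have hκ0 : 0 < κ := by positivity
  have hlam : κ * ((1 + τ) / 2) + (1 - p) * ((1 - τ) / 2) = -(X / 4) := by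
    have h1 : ε₀ * (1 + τ) = X := by rw [hε₀]; field_simp
    rw [hκ]
    have h2 : (1 + ε₀) / 2 * ((1 + τ) / 2) = (1 + τ) / 4 + (ε₀ * (1 + τ)) / 4 := by ring
    rw [h2, h1, hX]; ring
  obtain ⟨C₁, hC₁, htau⟩ := tauR_le_rpow hε₀0
  set K : ℝ := √(2 * C₁) with hK
  have hK0 : 0 ≤ K := Real.sqrt_nonneg _
  have hK2 : K ^ 2 = 2 * C₁ := Real.sq_sqrt (by linarith)
  -- the constant
  set D : ℝ := 6 * 4 ^ τ * ((K + 1) ^ ((1 + τ) / 2) * C ^ ((1 - τ) / 2)) with hD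
  -- thresholds
  have ev1 : ∀ᶠ r : ℕ in atTop, D * (r : ℝ) ^ (-(X / 4)) < δ := by
    have h1 : Tendsto (fun r : ℕ => D * (r : ℝ) ^ (-(X / 4))) atTop (𝓝 (D * 0)) :=
      ((tendsto_rpow_neg_atTop (by positivity : 0 < X / 4)).comp
        tendsto_natCast_atTop_atTop).const_mul D
    rw [mul_zero] at h1
    exact h1.eventually_lt_const hδ
  have ev2 : ∀ᶠ r : ℕ in atTop, C ≤ (r : ℝ) ^ (p - 5 / 2) :=
    ((tendsto_rpow_atTop (by linarith : 0 < p - 5 / 2)).comp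
      tendsto_natCast_atTop_atTop).eventually_ge_atTop _
  obtain ⟨R, hR⟩ := eventually_atTop.1 (ev1.and ev2)
  obtain ⟨a, r, hRr, hcop, hne, hlt⟩ := hA (max R N₀)
  have hrR : R ≤ r := le_trans (le_max_left _ _) hRr.le
  have hrN : N₀ < r := lt_of_le_of_lt (le_max_right _ _) hRr
  have hr : 0 < r := by omega
  have hr0 : (0 : ℝ) < r := by exact_mod_cast hr
  have hr1 : (1 : ℝ) ≤ r := by exact_mod_cast hr
  obtain ⟨hR1, hR2⟩ := hR r hrR
  set b : ℝ := |θ - a / r| with hb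
  have hb0 : 0 < b := abs_pos.2 (sub_ne_zero.2 hne)
  -- the length of the intervals
  set k : ℕ := ⌊K * (r : ℝ) ^ κ⌋₊ + 1 with hk
  have hrκ : (1 : ℝ) ≤ (r : ℝ) ^ κ := Real.one_le_rpow hr1 hκ0.le
  have hk1 : K * (r : ℝ) ^ κ < k := by
    rw [hk]; push_cast; exact Nat.lt_floor_add_one _
  have hk2 : (k : ℝ) ≤ (K + 1) * (r : ℝ) ^ κ := by
    rw [hk]; push_cast
    have h1 := Nat.floor_le (show 0 ≤ K * (r : ℝ) ^ κ by positivity)
    nlinarith
  have hk0 : (0 : ℝ) < k := lt_of_le_of_lt (by positivity) hk1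
  have hkk : (2 * r * r.divisors.card : ℝ) < (k : ℝ) ^ 2 := by
    have h1 := htau r hr.ne'
    have h2 : (K * (r : ℝ) ^ κ) ^ 2 < (k : ℝ) ^ 2 := by
      have h3 : 0 ≤ K * (r : ℝ) ^ κ := by positivity
      nlinarith
    have h3 : (K * (r : ℝ) ^ κ) ^ 2 = 2 * r * (C₁ * (r : ℝ) ^ ε₀) := by
      rw [mul_pow, hK2, ← Real.rpow_natCast, ← Real.rpow_mul hr0.le]
      have e1 : κ * ((2 : ℕ) : ℝ) = 1 + ε₀ := by rw [hκ]; push_cast; ring
      rw [e1, Real.rpow_add hr0, Real.rpow_one]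
      ring
    have h4 : (2 * r * r.divisors.card : ℝ) ≤ 2 * r * (C₁ * (r : ℝ) ^ ε₀) := by
      have h5 : ((r.divisors.card : ℕ) : ℝ) ≤ C₁ * (r : ℝ) ^ ε₀ := h1
      gcongr
    linarith
  have hkk' : 2 * r * r.divisors.card < k ^ 2 := by exact_mod_cast hkk
  have hbig : (r : ℝ) ^ 3 * b ≤ k := by
    have h1 : b ≤ C / (r : ℝ) ^ p := hlt.le
    have h2 : (r : ℝ) ^ 3 * b ≤ (r : ℝ) ^ ((1 : ℝ) / 2) := by
      calc (r : ℝ) ^ 3 * b ≤ (r : ℝ) ^ 3 * (C / (r : ℝ) ^ p) := by gcongr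
        _ ≤ (r : ℝ) ^ 3 * ((r : ℝ) ^ (p - 5 / 2) / (r : ℝ) ^ p) := by gcongr
        _ = (r : ℝ) ^ ((1 : ℝ) / 2) := by
            rw [← Real.rpow_natCast, ← Real.rpow_sub hr0, ← Real.rpow_add hr0]
            congr 1
            push_cast; ring
    have h3 : (r : ℝ) ^ ((1 : ℝ) / 2) ≤ k := by
      rw [← Real.sqrt_eq_rpow]
      refine Real.sqrt_le_iff.2 ⟨hk0.le, ?_⟩
      have h4 : (1 : ℝ) ≤ r.divisors.card := by
        have : 0 < r.divisors.card := Finset.card_pos.2 ⟨1, Nat.one_mem_divisors.2 hr.ne'⟩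
        exact_mod_cast this
      nlinarith
    linarith
  have hy0 : 0 < r * b := by positivity
  set N : ℕ := ⌊4 * √(k / (r * b))⌋₊ with hN
  refine ⟨N, fun η => ?_⟩
  obtain ⟨q, hq1, hq2, hq3⟩ := one_scale' hr hcop hne hkk' hbig η
  refine ⟨q, by omega, Nat.le_floor hq2, ?_⟩
  have hNle : (N : ℝ) ≤ 4 * √(k / (r * b)) := Nat.floor_le (by positivity)
  have hY : r * b ≤ C * (r : ℝ) ^ (1 - p) := by
    calc r * b ≤ r * (C / (r : ℝ) ^ p) := by gcongr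
      _ = C * (r : ℝ) ^ (1 - p) := by
          rw [Real.rpow_sub hr0, Real.rpow_one]; ring
  calc (N : ℝ) ^ τ * |(q : ℝ) ^ 2 * θ - η - ((round ((q : ℝ) ^ 2 * θ - η) : ℤ) : ℝ)|
      ≤ (4 * √(k / (r * b))) ^ τ * (6 * √(k * (r * b))) := by
        have h1 : (N : ℝ) ^ τ ≤ (4 * √(k / (r * b))) ^ τ :=
          Real.rpow_le_rpow (Nat.cast_nonneg _) hNle hτ0
        exact mul_le_mul h1 hq3 (abs_nonneg _) (by positivity)
    _ = 6 * 4 ^ τ * (√(k * (r * b)) * (√(k / (r * b))) ^ τ) := by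
        rw [Real.mul_rpow (by norm_num) (Real.sqrt_nonneg _)]; ring
    _ ≤ 6 * 4 ^ τ * (((K + 1) * (r : ℝ) ^ κ) ^ ((1 + τ) / 2) *
          (C * (r : ℝ) ^ (1 - p)) ^ ((1 - τ) / 2)) := by
        have := pow_bound hk0 hy0 hk2 hY hτ0 hτ1.le
        gcongr
    _ = D * (r : ℝ) ^ (-(X / 4)) := by
        rw [Real.mul_rpow (by positivity) (by positivity), Real.mul_rpow hC.le (by positivity),
          ← Real.rpow_mul hr0.le, ← Real.rpow_mul hr0.le, ← hlam, Real.rpow_add hr0, hD]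
        ring
    _ < δ := hR1

end Pool.Agent.QSqL
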